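import Pool.Agent.H115Z.Cov.Cheb

set_option autoImplicit false

namespace Pool.Agent.H115Z.Cov

open Finset

section Act
variable {G : Type*} [Group G] {Y : Type*} [MulAction G Y]

/-- Standard inner product on finitely supported functions. -/
noncomputable def ip (Y : Type*) : (Y →₀ ℝ) →ₗ[ℝ] (Y →₀ ℝ) →ₗ[ℝ] ℝ :=
  Finsupp.lsum ℝ fun y => LinearMap.toSpanSingleton ℝ _ (Finsupp.lapply y)

lemma ip_single (y : Y) (a : ℝ) (v : Y →₀ ℝ) : ip Y (Finsupp.single y a) v = a * v y := by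
  simp [ip]

lemma ip_eq_sum (u v : Y →₀ ℝ) : ip Y u v = ∑ y ∈ u.support, u y * v y := by
  conv_lhs => rw [← Finsupp.sum_single u]
  rw [Finsupp.sum, map_sum, LinearMap.sum_apply]
  simp only [ip_single]

lemma ip_symm (u v : Y →₀ ℝ) : ip Y u v = ip Y v u := by
  classical
  induction u using Finsupp.induction_linear with
  | zero => simp
  | add f g hf hg => simp [hf, hg]
  | single a b =>
    induction v using Finsupp.induction_linear with
    | zero => simp
    | add f g hf hg => rw [map_add, map_add, LinearMap.add_apply, hf, hg]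
    | single c d =>
      simp only [ip_single, Finsupp.single_apply]
      by_cases h : a = c
      · simp [h, mul_comm]
      · simp [h, Ne.symm h]

lemma ip_ge (u : Y →₀ ℝ) (C : Finset Y) : ∑ y ∈ C, u y ^ 2 ≤ ip Y u u := by
  classical
  rw [ip_eq_sum]
  calc ∑ y ∈ C, u y ^ 2 = ∑ y ∈ C ∩ u.support, u y ^ 2 := by
        symm; refine Finset.sum_subset Finset.inter_subset_left ?_
        intro x hx hx'
        have : u x = 0 := by
          by_contra h; exact hx' (Finset.mem_inter.mpr ⟨hx, Finsupp.mem_support_iff.mpr h⟩)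
        simp [this]
    _ ≤ ∑ y ∈ u.support, u y ^ 2 :=
        Finset.sum_le_sum_of_subset_of_nonneg Finset.inter_subset_right (fun _ _ _ => sq_nonneg _)
    _ = _ := by simp only [sq]

lemma ip_nonneg (u : Y →₀ ℝ) : 0 ≤ ip Y u u := by simpa using ip_ge u ∅

/-- Permutation action. -/
noncomputable def act (Y : Type*) [MulAction G Y] (g : G) : (Y →₀ ℝ) →ₗ[ℝ] (Y →₀ ℝ) :=
  Finsupp.lmapDomain ℝ ℝ (fun y : Y => g • y)

lemma act_single (g : G) (y : Y) (a : ℝ) :
    act Y g (Finsupp.single y a) = Finsupp.single (g • y) a := by simp [act]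

lemma act_apply (g : G) (u : Y →₀ ℝ) (y : Y) : act Y g u (g • y) = u y :=
  Finsupp.mapDomain_apply (MulAction.injective g) u y

lemma act_apply' (g : G) (u : Y →₀ ℝ) (y : Y) : act Y g u y = u (g⁻¹ • y) := by
  rw [← act_apply g u, smul_inv_smul]

lemma act_mul (g h : G) (u : Y →₀ ℝ) : act Y g (act Y h u) = act Y (g * h) u := by
  ext y; simp only [act_apply', mul_inv_rev, mul_smul]

lemma act_one (u : Y →₀ ℝ) : act Y (1 : G) u = u := by
  ext y; simp only [act_apply', inv_one, one_smul]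

lemma ip_act (g : G) (u v : Y →₀ ℝ) : ip Y (act Y g u) v = ip Y u (act Y g⁻¹ v) := by
  induction u using Finsupp.induction_linear with
  | zero => simp
  | add f g hf hg => simp [hf, hg]
  | single a b => rw [act_single, ip_single, ip_single, act_apply', inv_inv]

lemma ip_act_act (g : G) (u v : Y →₀ ℝ) : ip Y (act Y g u) (act Y g v) = ip Y u v := by
  rw [ip_act, act_mul, inv_mul_cancel, act_one]

variable {ι : Type*} [Fintype ι]

/-- Markov operator. -/
noncomputable def mk (Y : Type*) [MulAction G Y] (σ : ι → G) : (Y →₀ ℝ) →ₗ[ℝ] (Y →₀ ℝ) :=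
  ((Fintype.card ι : ℝ)⁻¹) • ∑ j, act Y (σ j)

lemma mk_apply (σ : ι → G) (u : Y →₀ ℝ) :
    mk Y σ u = ((Fintype.card ι : ℝ)⁻¹) • ∑ j, act Y (σ j) u := by
  simp [mk, LinearMap.sum_apply]

lemma ip_mk (σ : ι → G) (u v : Y →₀ ℝ) :
    ip Y (mk Y σ u) v = ((Fintype.card ι : ℝ)⁻¹) * ∑ j, ip Y (act Y (σ j) u) v := by
  rw [mk_apply, map_smul, map_sum, LinearMap.smul_apply, LinearMap.sum_apply, smul_eq_mul]

lemma mk_symm (σ : ι → G) (τ : ι ≃ ι) (hτ : ∀ j, σ (τ j) = (σ j)⁻¹) (u v : Y →₀ ℝ) :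
    ip Y (mk Y σ u) v = ip Y u (mk Y σ v) := by
  rw [ip_symm u, ip_mk, ip_mk]
  congr 1
  rw [← Equiv.sum_comp τ]
  refine Finset.sum_congr rfl fun j _ => ?_
  rw [hτ, ip_act, inv_inv, ip_symm]

lemma mk_energy (σ : ι → G) (j0 : ι) (h0 : σ j0 = 1) (u : Y →₀ ℝ) :
    ip Y (mk Y σ u) (mk Y σ u) + (∑ k, ip Y (act Y (σ k) u - u) (act Y (σ k) u - u)) /
      (2 * (Fintype.card ι : ℝ) ^ 2) ≤ ip Y u u := by
  have hD : (0 : ℝ) < Fintype.card ι := by
    have : Nonempty ι := ⟨j0⟩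
    exact_mod_cast Fintype.card_pos
  set D : ℝ := (Fintype.card ι : ℝ) with hDdef
  have e1 : ip Y (mk Y σ u) (mk Y σ u) =
      (∑ j, ∑ k, ip Y (act Y (σ j) u) (act Y (σ k) u)) / D ^ 2 := by
    rw [ip_mk]
    simp only [ip_symm _ (mk Y σ u), ip_mk]
    rw [← Finset.mul_sum, Finset.sum_comm, ← hDdef]; field_simp
  have e2 : ∀ j k, ip Y (act Y (σ j) u - act Y (σ k) u) (act Y (σ j) u - act Y (σ k) u) =
      2 * ip Y u u - 2 * ip Y (act Y (σ j) u) (act Y (σ k) u) := by
    intro j k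
    simp only [map_sub, LinearMap.sub_apply, ip_act_act, ip_symm (act Y (σ k) u) (act Y (σ j) u)]
    ring
  have e3 : ∑ k, ip Y (act Y (σ k) u - u) (act Y (σ k) u - u) ≤
      ∑ k, ∑ j, ip Y (act Y (σ k) u - act Y (σ j) u) (act Y (σ k) u - act Y (σ j) u) := by
    refine Finset.sum_le_sum fun k _ => ?_
    have := Finset.single_le_sum (f := fun j => ip Y (act Y (σ k) u - act Y (σ j) u)
      (act Y (σ k) u - act Y (σ j) u)) (fun j _ => ip_nonneg _) (Finset.mem_univ j0)
    simpa only [h0, act_one] using this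
  simp only [e2, Finset.sum_sub_distrib, Finset.sum_const, Finset.card_univ, nsmul_eq_mul,
    ← Finset.mul_sum, ← hDdef] at e3
  rw [e1]
  have : (∑ k, ip Y (act Y (σ k) u - u) (act Y (σ k) u - u)) / (2 * D ^ 2) ≤
      (D * (D * (2 * ip Y u u)) - 2 * ∑ j, ∑ k, ip Y (act Y (σ j) u) (act Y (σ k) u)) /
        (2 * D ^ 2) := div_le_div_of_nonneg_right e3 (by positivity)
  refine (add_le_add_right this _).trans (le_of_eq ?_)
  field_simp; ring

lemma mk_contr (σ : ι → G) (j0 : ι) (h0 : σ j0 = 1) (u : Y →₀ ℝ) :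
    ip Y (mk Y σ u) (mk Y σ u) ≤ ip Y u u := by
  have := mk_energy σ j0 h0 u
  have h : 0 ≤ (∑ k, ip Y (act Y (σ k) u - u) (act Y (σ k) u - u)) /
      (2 * (Fintype.card ι : ℝ) ^ 2) :=
    div_nonneg (Finset.sum_nonneg fun _ _ => ip_nonneg _) (by positivity)
  linarith

/-- Expectation over random words of a given length. -/
noncomputable def ex (σ : ι → G) : ℕ → (G → ℝ) → ℝ
  | 0, φ => φ 1
  | T + 1, φ => ((Fintype.card ι : ℝ)⁻¹) * ∑ j, ex σ T (fun h => φ (σ j * h))

lemma ip_pow (σ : ι → G) (w : Y →₀ ℝ) (T : ℕ) : ∀ η : Y →₀ ℝ,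
    ip Y ((mk Y σ ^ T) w) η = ex σ T (fun h => ip Y (act Y h w) η) := by
  induction T with
  | zero => intro η; simp [ex, act_one]
  | succ T ih =>
    intro η
    rw [pow_succ', Module.End.mul_apply, ip_mk, ex]
    congr 1
    refine Finset.sum_congr rfl fun j _ => ?_
    rw [ip_act, ih]
    congr 1; funext h
    rw [← ip_act, act_mul]

lemma ex_mono (σ : ι → G) (T : ℕ) : ∀ φ ψ : G → ℝ, (∀ h, φ h ≤ ψ h) → ex σ T φ ≤ ex σ T ψ := by
  induction T with
  | zero => intro φ ψ h; exact h 1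
  | succ T ih =>
    intro φ ψ h
    simp only [ex]
    exact mul_le_mul_of_nonneg_left (Finset.sum_le_sum fun j _ => ih _ _ fun x => h _)
      (by positivity)

lemma ex_lin (σ : ι → G) [Nonempty ι] {κ : Type*} [Fintype κ] (T : ℕ) : ∀ φ : κ → G → ℝ,
    ex σ T (fun h => 1 - ∑ i, φ i h) = 1 - ∑ i, ex σ T (φ i) := by
  have hD : (0 : ℝ) < Fintype.card ι := by exact_mod_cast Fintype.card_pos
  induction T with
  | zero => intro φ; simp [ex]
  | succ T ih =>
    intro φ
    simp only [ex]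
    have : ∀ j, ex σ T (fun h => 1 - ∑ i, φ i (σ j * h)) =
        1 - ∑ i, ex σ T (fun h => φ i (σ j * h)) := fun j => ih fun i h => φ i (σ j * h)
    simp only [this, Finset.sum_sub_distrib, Finset.sum_const, Finset.card_univ, nsmul_eq_mul,
      ← Finset.mul_sum]
    rw [Finset.sum_comm]; field_simp

lemma van (σ : ι → G) (j0 : ι) (h0 : σ j0 = 1) (Bl : ℕ → G → Prop) (hB0 : Bl 0 1)
    (hB : ∀ m h j, Bl m h → Bl (m + 1) (h * σ j)) (ξ η : Y →₀ ℝ) (R : ℕ)
    (hv : ∀ h, Bl R h → ip Y (act Y h ξ) η = 0) :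
    ∀ k ≤ R, ip Y (uv (mk Y σ) ξ k).1 η = 0 := by
  have mono : ∀ m h, Bl m h → Bl (m + 1) h := fun m h hh => by
    simpa [h0] using hB m h j0 hh
  have one : ∀ m, Bl m 1 := fun m => by
    induction m with
    | zero => exact hB0
    | succ m ih => exact mono _ _ ih
  have step : ∀ m w, (∀ h, Bl (m + 1) h → ip Y (act Y h w) η = 0) →
      ∀ h, Bl m h → ip Y (act Y h (mk Y σ w)) η = 0 := by
    intro m w hw h hh
    rw [mk_apply, map_smul, map_sum, map_smul, map_sum, LinearMap.smul_apply, LinearMap.sum_apply]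
    rw [Finset.sum_eq_zero, smul_zero]
    intro j _
    rw [act_mul]; exact hw _ (hB _ _ _ hh)
  have key : ∀ k, (∀ m, m + k = R → ∀ h, Bl m h → ip Y (act Y h (uv (mk Y σ) ξ k).1) η = 0) ∧
      (∀ m, m + (k + 1) = R → ∀ h, Bl m h →
        ip Y (act Y h (uv (mk Y σ) ξ (k + 1)).1) η = 0) := by
    intro k
    induction k with
    | zero =>
      refine ⟨fun m hm h hh => hv h (by simpa [← hm] using hh), fun m hm => ?_⟩
      rw [zero_add, uv_one]
      exact step m ξ fun h hh => hv h (by rw [← hm]; simpa using hh)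
    | succ k ih =>
      refine ⟨ih.2, fun m hm h hh => ?_⟩
      rw [show k + 1 + 1 = k + 2 from rfl, uv_two, map_sub, map_smul, map_sub, map_smul,
        LinearMap.sub_apply, LinearMap.smul_apply,
        step m _ (ih.2 (m + 1) (by omega)) h hh,
        ih.1 (m + 2) (by omega) h (mono _ _ (mono _ _ hh))]
      simp
  intro k hk
  have := (key k).1 (R - k) (by omega) 1 (one _)
  rwa [act_one] at this

end Act

end Pool.Agent.H115Z.Cov
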