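import Mathlib

set_option autoImplicit false

namespace Pool.Agent.H115Z.Cov

section Abstract
variable {V : Type*} [AddCommGroup V] [Module ℝ V]

/-- Chebyshev pair recursion. -/
noncomputable def uv (P : V →ₗ[ℝ] V) (ξ : V) : ℕ → V × V
  | 0 => (ξ, 0)
  | k + 1 => (P (uv P ξ k).1 - ((uv P ξ k).2 - P (P (uv P ξ k).2)), (uv P ξ k).1 + P (uv P ξ k).2)

lemma uv_one (P : V →ₗ[ℝ] V) (ξ : V) : (uv P ξ 1).1 = P ξ := by simp [uv]

lemma uv_two (P : V →ₗ[ℝ] V) (ξ : V) (k : ℕ) :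
    (uv P ξ (k + 2)).1 = (2 : ℝ) • P (uv P ξ (k + 1)).1 - (uv P ξ k).1 := by
  simp only [uv, map_add, map_sub, two_smul]
  abel

lemma uv_energy (B : V →ₗ[ℝ] V →ₗ[ℝ] ℝ) (hs : ∀ u v, B u v = B v u) (P : V →ₗ[ℝ] V)
    (hP : ∀ u v, B (P u) v = B u (P v)) (ξ : V) (k : ℕ) :
    B (uv P ξ k).1 (uv P ξ k).1 + (B (uv P ξ k).2 (uv P ξ k).2
      - B (P (uv P ξ k).2) (P (uv P ξ k).2)) = B ξ ξ := by
  induction k with
  | zero => simp [uv]
  | succ k ih =>
    rw [← ih]
    simp only [uv]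
    generalize (uv P ξ k).1 = u
    generalize (uv P ξ k).2 = v
    simp only [map_add, map_sub, LinearMap.add_apply, LinearMap.sub_apply, hP]
    have h1 : B v (P u) = B u (P v) := by rw [hs, hP]
    have h2 : B v (P (P (P u))) = B u (P (P (P v))) := by rw [hs, hP, hP, hP]
    rw [h1, h2]
    ring

lemma abs_le_half (B : V →ₗ[ℝ] V →ₗ[ℝ] ℝ) (hs : ∀ u v, B u v = B v u) (h0 : ∀ u, 0 ≤ B u u)
    (u v : V) : |B u v| ≤ (B u u + B v v) / 2 := by
  have a := h0 (u - v)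
  have b := h0 (u + v)
  simp only [map_add, map_sub, LinearMap.add_apply, LinearMap.sub_apply, hs v u] at a b
  rw [abs_le]; constructor <;> linarith

lemma cheb_bound (B : V →ₗ[ℝ] V →ₗ[ℝ] ℝ) (hs : ∀ u v, B u v = B v u) (h0 : ∀ u, 0 ≤ B u u)
    (P : V →ₗ[ℝ] V) (hP : ∀ u v, B (P u) v = B u (P v)) (hc : ∀ u, B (P u) (P u) ≤ B u u)
    (ξ η : V) (K : ℝ) (hξ : B ξ ξ ≤ K) (hη : B η η ≤ K) (R : ℕ)
    (hv : ∀ k ≤ R, B (uv P ξ k).1 η = 0) (l : ℝ) (hl : 0 ≤ l) (T : ℕ) :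
    ∀ k : ℕ, |B ((P ^ T) (uv P ξ k).1) η| ≤
      K * Real.cosh l ^ T * Real.cosh (l * k) / Real.cosh (l * R) := by
  have hK : 0 ≤ K := (h0 ξ).trans hξ
  have hcR : 0 < Real.cosh (l * R) := Real.cosh_pos _
  induction T with
  | zero =>
    intro k
    simp only [pow_zero, Module.End.one_apply, mul_one]
    by_cases hk : k ≤ R
    · rw [hv k hk, abs_zero]; positivity
    · have e := uv_energy B hs P hP ξ k
      have c := hc (uv P ξ k).2
      have a := abs_le_half B hs h0 (uv P ξ k).1 η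
      have hle : Real.cosh (l * R) ≤ Real.cosh (l * k) := by
        rw [Real.cosh_le_cosh, abs_of_nonneg (by positivity), abs_of_nonneg (by positivity)]
        have : (R : ℝ) ≤ k := by exact_mod_cast (not_le.mp hk).le
        exact mul_le_mul_of_nonneg_left this hl
      rw [le_div_iff₀ hcR]
      have : |B (uv P ξ k).1 η| ≤ K := by linarith
      calc _ ≤ K * Real.cosh (l * R) := mul_le_mul_of_nonneg_right this hcR.le
        _ ≤ _ := mul_le_mul_of_nonneg_left hle hK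
  | succ T ih =>
    intro k
    rw [pow_succ, Module.End.mul_apply]
    cases k with
    | zero =>
      have := ih 1
      rw [uv_one] at this
      simp only [uv, Nat.cast_zero, mul_zero, Real.cosh_zero, mul_one, Nat.cast_one] at this ⊢
      rw [pow_succ, ← mul_assoc]; exact this
    | succ k =>
      have e : P (uv P ξ (k + 1)).1 = (1 / 2 : ℝ) • ((uv P ξ (k + 2)).1 + (uv P ξ k).1) := by
        rw [uv_two, sub_add_cancel, smul_smul]; norm_num
      rw [e, map_smul, map_add, map_smul, map_add, LinearMap.smul_apply, LinearMap.add_apply,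
        smul_eq_mul]
      have a := ih (k + 2)
      have b := ih k
      have hch : Real.cosh (l * ((k + 2 : ℕ) : ℝ)) + Real.cosh (l * k) =
          2 * Real.cosh l * Real.cosh (l * ((k + 1 : ℕ) : ℝ)) := by
        have e1 : l * ((k + 2 : ℕ) : ℝ) = l * ((k + 1 : ℕ) : ℝ) + l := by push_cast; ring
        have e2 : l * (k : ℝ) = l * ((k + 1 : ℕ) : ℝ) - l := by push_cast; ring
        rw [e1, e2, Real.cosh_add, Real.cosh_sub]; ring
      have : K * Real.cosh l ^ (T + 1) * Real.cosh (l * ((k + 1 : ℕ) : ℝ)) / Real.cosh (l * R) =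
          1 / 2 * (K * Real.cosh l ^ T * Real.cosh (l * ((k + 2 : ℕ) : ℝ)) / Real.cosh (l * R) +
            K * Real.cosh l ^ T * Real.cosh (l * k) / Real.cosh (l * R)) := by
        rw [← add_div, ← mul_add, hch]; field_simp; ring
      rw [this, abs_mul, abs_of_nonneg (by norm_num : (0 : ℝ) ≤ 1 / 2)]
      refine mul_le_mul_of_nonneg_left ((abs_add_le _ _).trans (add_le_add a b)) (by norm_num)

lemma cheb_final (K : ℝ) (hK : 0 ≤ K) (R T : ℕ) (hT : 0 < T) :
    K * Real.cosh ((R : ℝ) / T) ^ T * Real.cosh ((R : ℝ) / T * (0 : ℕ)) /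
      Real.cosh ((R : ℝ) / T * R) ≤ 2 * K * Real.exp (-((R : ℝ) ^ 2 / (2 * T))) := by
  have hT' : (0 : ℝ) < T := by exact_mod_cast hT
  have h1 : Real.cosh ((R : ℝ) / T) ^ T ≤ Real.exp ((R : ℝ) ^ 2 / (2 * T)) := by
    calc _ ≤ Real.exp (((R : ℝ) / T) ^ 2 / 2) ^ T :=
          pow_le_pow_left₀ (Real.cosh_pos _).le (Real.cosh_le_exp_half_sq _) _
      _ = _ := by rw [← Real.exp_nat_mul]; congr 1; field_simp
  have h2 : Real.exp ((R : ℝ) ^ 2 / T) / 2 ≤ Real.cosh ((R : ℝ) / T * R) := by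
    rw [Real.cosh_eq]
    have : (R : ℝ) / T * R = (R : ℝ) ^ 2 / T := by ring
    rw [this]
    have := Real.exp_pos (-((R : ℝ) ^ 2 / T))
    linarith
  simp only [Nat.cast_zero, mul_zero, Real.cosh_zero, mul_one]
  rw [div_le_iff₀ (Real.cosh_pos _)]
  calc _ ≤ K * Real.exp ((R : ℝ) ^ 2 / (2 * T)) := mul_le_mul_of_nonneg_left h1 hK
    _ = 2 * K * Real.exp (-((R : ℝ) ^ 2 / (2 * T))) * (Real.exp ((R : ℝ) ^ 2 / T) / 2) := by
        have : Real.exp ((R : ℝ) ^ 2 / (2 * T)) =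
            Real.exp (-((R : ℝ) ^ 2 / (2 * T))) * Real.exp ((R : ℝ) ^ 2 / T) := by
          rw [← Real.exp_add]; congr 1; field_simp; ring
        rw [this]; ring
    _ ≤ _ := mul_le_mul_of_nonneg_left h2 (by positivity)

end Abstract

end Pool.Agent.H115Z.Cov
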