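import Pool.Agent.H115Z.Cov.Act

set_option autoImplicit false

namespace Pool.Agent.H115Z.Cov

open Finset

section Heat
variable {G : Type*} [Group G] {X : Type*} [MulAction G X] {ι : Type*} [Fintype ι]

/-- Total mass. -/
noncomputable def mass (X : Type*) : (X →₀ ℝ) →ₗ[ℝ] ℝ := Finsupp.linearCombination ℝ fun _ => (1 : ℝ)

lemma mass_eq (u : X →₀ ℝ) : mass X u = ∑ y ∈ u.support, u y := by
  simp [mass, Finsupp.linearCombination_apply, Finsupp.sum]

lemma mass_act (g : G) (u : X →₀ ℝ) : mass X (act X g u) = mass X u := by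
  induction u using Finsupp.induction_linear with
  | zero => simp
  | add f g hf hg => simp [hf, hg]
  | single a b => rw [act_single]; simp [mass]

lemma sum_le_mass (u : X →₀ ℝ) (hu : ∀ y, 0 ≤ u y) (C : Finset X) : ∑ y ∈ C, u y ≤ mass X u := by
  classical
  rw [mass_eq]
  calc ∑ y ∈ C, u y = ∑ y ∈ C ∩ u.support, u y := by
        symm; refine Finset.sum_subset Finset.inter_subset_left ?_
        intro x hx hx'
        by_contra h; exact hx' (Finset.mem_inter.mpr ⟨hx, Finsupp.mem_support_iff.mpr h⟩)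
    _ ≤ _ := Finset.sum_le_sum_of_subset_of_nonneg Finset.inter_subset_right (fun _ _ _ => hu _)

lemma pow_prob (σ : ι → G) [Nonempty ι] (x : X) (t : ℕ) :
    (∀ y, 0 ≤ ((mk X σ ^ t) (Finsupp.single x 1)) y) ∧
      mass X ((mk X σ ^ t) (Finsupp.single x 1)) = 1 := by
  classical
  have hD : (0 : ℝ) < Fintype.card ι := by exact_mod_cast Fintype.card_pos
  induction t with
  | zero =>
    refine ⟨fun y => ?_, by simp [mass]⟩
    simp only [pow_zero, Module.End.one_apply, Finsupp.single_apply]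
    split_ifs <;> norm_num
  | succ t ih =>
    rw [pow_succ', Module.End.mul_apply, mk_apply]
    refine ⟨fun y => ?_, ?_⟩
    · rw [Finsupp.smul_apply, Finsupp.finsetSum_apply, smul_eq_mul]
      refine mul_nonneg (by positivity) (Finset.sum_nonneg fun j _ => ?_)
      rw [act_apply']; exact ih.1 _
    · rw [map_smul, map_sum]
      simp only [mass_act, ih.2, Finset.sum_const, Finset.card_univ, nsmul_eq_mul, smul_eq_mul]
      field_simp

lemma grow (σ : ι → G) (hexit : ∀ C : Finset X, C.Nonempty → ∃ z ∈ C, ∃ k, σ k • z ∉ C)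
    (w : X →₀ ℝ) (x0 : X) (α : ℝ) (hα : 0 < α) (L : ℕ) :
    ∃ C : Finset X, C.card = L + 1 ∧ ∀ y ∈ C,
      w x0 - ((∑ z ∈ C, ∑ k, (act X (σ k) w - w) z ^ 2) / α + L * α) / 2 ≤ w y := by
  classical
  induction L with
  | zero =>
    refine ⟨{x0}, by simp, fun y hy => ?_⟩
    rw [Finset.mem_singleton.mp hy]
    have : 0 ≤ (∑ z ∈ ({x0} : Finset X), ∑ k, (act X (σ k) w - w) z ^ 2) / α := by positivity
    simp only [Nat.cast_zero, zero_mul, add_zero]; linarith
  | succ L ih =>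
    obtain ⟨C, hC, hw⟩ := ih
    obtain ⟨z, hz, k, hk⟩ := hexit C (Finset.card_pos.mp (by omega))
    refine ⟨insert (σ k • z) C, by rw [Finset.card_insert_of_notMem hk, hC], fun y hy => ?_⟩
    rw [Finset.sum_insert hk]
    set A := ∑ z ∈ C, ∑ k, (act X (σ k) w - w) z ^ 2
    set e := ∑ j, (act X (σ j) w - w) (σ k • z) ^ 2 with he
    have he0 : 0 ≤ e := by positivity
    have hd : (e + A) / α = e / α + A / α := add_div _ _ _
    have hea : 0 ≤ e / α := by positivity
    rw [hd]; push_cast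
    rcases Finset.mem_insert.mp hy with rfl | hy
    · have h1 : (w z - w (σ k • z)) ^ 2 ≤ e := by
        have := Finset.single_le_sum (f := fun j => (act X (σ j) w - w) (σ k • z) ^ 2)
          (fun j _ => sq_nonneg _) (Finset.mem_univ k)
        rw [← he] at this
        simpa only [Finsupp.sub_apply, act_apply] using this
      have h2 : 2 * (w z - w (σ k • z)) ≤ e / α + α := by
        have : (2 * (w z - w (σ k • z)) - α) * α ≤ e := by nlinarith [sq_nonneg (w z - w (σ k • z) - α)]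
        have := (le_div_iff₀ hα).mpr this
        linarith
      have := hw z hz
      linarith
    · have := hw y hy
      linarith

lemma nash (σ : ι → G) (hexit : ∀ C : Finset X, C.Nonempty → ∃ z ∈ C, ∃ k, σ k • z ∉ C)
    (w : X →₀ ℝ) (hw : ∀ y, 0 ≤ w y) (hm : mass X w = 1) :
    (ip X w w) ^ 3 / 8 ≤ ∑ k, ip X (act X (σ k) w - w) (act X (σ k) w - w) := by
  classical
  have hne : w.support.Nonempty := by
    by_contra h
    rw [Finset.not_nonempty_iff_eq_empty] at h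
    rw [mass_eq, h] at hm; simp at hm
  obtain ⟨x0, hx0, hmax⟩ := Finset.exists_max_image w.support w hne
  set M := w x0 with hM
  have hM0 : 0 < M := lt_of_le_of_ne (hw x0) (Ne.symm (Finsupp.mem_support_iff.mp hx0))
  have hn : ip X w w ≤ M := by
    rw [ip_eq_sum]
    calc _ ≤ ∑ y ∈ w.support, w y * M :=
          Finset.sum_le_sum fun y hy => mul_le_mul_of_nonneg_left (hmax y hy) (hw y)
      _ = M := by rw [← Finset.sum_mul, ← mass_eq, hm, one_mul]
  set E := ∑ k, ip X (act X (σ k) w - w) (act X (σ k) w - w) with hE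
  obtain ⟨C, hC, hCw⟩ := grow σ hexit w x0 (M ^ 2 / 4) (by positivity) ⌊2 / M⌋₊
  set L := ⌊2 / M⌋₊
  have hL1 : (L : ℝ) ≤ 2 / M := Nat.floor_le (by positivity)
  have hL2 : 2 / M < L + 1 := Nat.lt_floor_add_one _
  set A := ∑ z ∈ C, ∑ k, (act X (σ k) w - w) z ^ 2 with hA
  have hAE : A ≤ E := by
    rw [hA, Finset.sum_comm]; exact Finset.sum_le_sum fun k _ => ip_ge _ _
  have hs : ((L : ℝ) + 1) * (M - (A / (M ^ 2 / 4) + L * (M ^ 2 / 4)) / 2) ≤ 1 := by
    have := Finset.card_nsmul_le_sum C w _ hCw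
    rw [hC, nsmul_eq_mul] at this
    push_cast at this
    exact this.trans (hm ▸ sum_le_mass w hw C)
  have h3 : M - (A / (M ^ 2 / 4) + L * (M ^ 2 / 4)) / 2 ≤ M / 2 := by
    by_contra h
    push Not at h
    have h4 : 2 < (L + 1) * M := (div_lt_iff₀ hM0).mp hL2
    have : ((L : ℝ) + 1) * (M / 2) ≤ ((L : ℝ) + 1) * (M - (A / (M ^ 2 / 4) + L * (M ^ 2 / 4)) / 2) :=
      mul_le_mul_of_nonneg_left h.le (by positivity)
    linarith
  have h5 : (L : ℝ) * (M ^ 2 / 4) ≤ M / 2 := by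
    calc _ ≤ 2 / M * (M ^ 2 / 4) := mul_le_mul_of_nonneg_right hL1 (by positivity)
      _ = _ := by field_simp; ring
  have h6 : M / 2 ≤ A / (M ^ 2 / 4) := by linarith
  have h7 := (le_div_iff₀ (by positivity)).mp h6
  have h8 : (ip X w w) ^ 3 ≤ M ^ 3 := pow_le_pow_left₀ (ip_nonneg w) hn 3
  nlinarith

lemma heat (σ : ι → G) (j0 : ι) (h0 : σ j0 = 1)
    (hexit : ∀ C : Finset X, C.Nonempty → ∃ z ∈ C, ∃ k, σ k • z ∉ C) (x : X) (t : ℕ) :
    (t : ℝ) * (ip X ((mk X σ ^ t) (Finsupp.single x 1)) ((mk X σ ^ t) (Finsupp.single x 1))) ^ 2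
      ≤ 8 * (Fintype.card ι : ℝ) ^ 2 ∧
    ip X ((mk X σ ^ t) (Finsupp.single x 1)) ((mk X σ ^ t) (Finsupp.single x 1)) ≤ 1 := by
  have : Nonempty ι := ⟨j0⟩
  have hD : (1 : ℝ) ≤ Fintype.card ι := by exact_mod_cast Fintype.card_pos
  induction t with
  | zero => simp [ip_single]
  | succ t ih =>
    rw [pow_succ' (mk X σ), Module.End.mul_apply]
    obtain ⟨p1, p2⟩ := pow_prob σ x t
    set w := (mk X σ ^ t) (Finsupp.single x 1)
    have e := mk_energy σ j0 h0 w
    have n := nash σ hexit w p1 p2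
    have c := mk_contr σ j0 h0 w
    refine ⟨?_, c.trans ih.2⟩
    set D : ℝ := (Fintype.card ι : ℝ)
    set a := ip X w w
    set b := ip X (mk X σ w) (mk X σ w)
    have ha : 0 ≤ a := ip_nonneg _
    have hb : 0 ≤ b := ip_nonneg _
    have hD2 : 1 ≤ D ^ 2 := one_le_pow₀ hD
    set s := a ^ 2 / (16 * D ^ 2) with hs
    have hs0 : 0 ≤ s := by positivity
    have hs1 : s ≤ 1 := by
      rw [hs, div_le_one (by positivity)]; nlinarith [ih.2]
    have h1 : b ≤ a * (1 - s) := by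
      have := div_le_div_of_nonneg_right n (by positivity : 0 ≤ 2 * D ^ 2)
      have e2 : a ^ 3 / 8 / (2 * D ^ 2) = a * s := by rw [hs]; field_simp; ring
      rw [e2] at this
      linarith
    have h2 : b ^ 2 ≤ (a * (1 - s)) ^ 2 := pow_le_pow_left₀ hb h1 2
    have h3 : a ^ 2 = 16 * D ^ 2 * s := by rw [hs]; field_simp
    have h4 : ((t : ℝ) + 1) * a ^ 2 ≤ 8 * D ^ 2 * (1 + 2 * s) := by nlinarith [ih.1]
    have h5 : (1 + 2 * s) * (1 - s) ^ 2 ≤ 1 := by nlinarith [mul_nonneg (sq_nonneg s) (sub_nonneg.mpr hs1)]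
    push_cast
    calc ((t : ℝ) + 1) * b ^ 2 ≤ ((t : ℝ) + 1) * (a * (1 - s)) ^ 2 :=
          mul_le_mul_of_nonneg_left h2 (by positivity)
      _ = ((t : ℝ) + 1) * a ^ 2 * (1 - s) ^ 2 := by ring
      _ ≤ 8 * D ^ 2 * (1 + 2 * s) * (1 - s) ^ 2 := mul_le_mul_of_nonneg_right h4 (sq_nonneg _)
      _ = 8 * D ^ 2 * ((1 + 2 * s) * (1 - s) ^ 2) := by ring
      _ ≤ 8 * D ^ 2 * 1 := mul_le_mul_of_nonneg_left h5 (by positivity)
      _ = _ := mul_one _

lemma pow_symm (σ : ι → G) (τ : ι ≃ ι) (hτ : ∀ j, σ (τ j) = (σ j)⁻¹) (t : ℕ) :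
    ∀ u v : X →₀ ℝ, ip X ((mk X σ ^ t) u) v = ip X u ((mk X σ ^ t) v) := by
  induction t with
  | zero => intro u v; rfl
  | succ t ih =>
    intro u v
    conv_lhs => rw [pow_succ']
    conv_rhs => rw [pow_succ]
    rw [Module.End.mul_apply, Module.End.mul_apply, mk_symm σ τ hτ, ih]

lemma kernel_le (σ : ι → G) (τ : ι ≃ ι) (hτ : ∀ j, σ (τ j) = (σ j)⁻¹) (j0 : ι) (h0 : σ j0 = 1)
    (hexit : ∀ C : Finset X, C.Nonempty → ∃ z ∈ C, ∃ k, σ k • z ∉ C) (x y : X) (N : ℕ)
    (hN : 0 < N) :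
    ex σ (2 * (32 * Fintype.card ι ^ 2 * N ^ 2))
      (fun h => ip X (act X h (Finsupp.single x 1)) (Finsupp.single y 1)) ≤ 1 / (2 * N) := by
  have : Nonempty ι := ⟨j0⟩
  have hD : (0 : ℝ) < Fintype.card ι := by exact_mod_cast Fintype.card_pos
  have hN' : (0 : ℝ) < N := by exact_mod_cast hN
  set t := 32 * Fintype.card ι ^ 2 * N ^ 2 with ht
  rw [← ip_pow, two_mul, pow_add, Module.End.mul_apply, pow_symm σ τ hτ]
  have key : ∀ x : X, ip X ((mk X σ ^ t) (Finsupp.single x 1)) ((mk X σ ^ t) (Finsupp.single x 1))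
      ≤ 1 / (2 * N) := by
    intro x
    have h := (heat σ j0 h0 hexit x t).1
    set a := ip X ((mk X σ ^ t) (Finsupp.single x 1)) ((mk X σ ^ t) (Finsupp.single x 1))
    have ha : 0 ≤ a := ip_nonneg _
    rw [ht] at h; push_cast at h
    have h2 : (2 * N * a) ^ 2 ≤ 1 := by
      have : (Fintype.card ι : ℝ) ^ 2 * (8 * (2 * N * a) ^ 2) ≤ (Fintype.card ι : ℝ) ^ 2 * 8 := by
        nlinarith
      have := le_of_mul_le_mul_left this (by positivity)
      linarith
    have h3 : 2 * N * a ≤ 1 := by nlinarith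
    rw [le_div_iff₀ (by positivity)]; linarith
  have := abs_le_half (ip X) ip_symm ip_nonneg ((mk X σ ^ t) (Finsupp.single x 1))
    ((mk X σ ^ t) (Finsupp.single y 1))
  have a := key x
  have b := key y
  have := (le_abs_self _).trans this
  linarith

end Heat

end Pool.Agent.H115Z.Cov
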