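import Pool.Agent.H115Z.Cov.Heat

set_option autoImplicit false

namespace Pool.Agent.H115Z.Cov

open Finset

section Main
variable {G : Type*} [Group G]

lemma exit_of_index (S : Finset G) (hS : Subgroup.closure (S : Set G) = ⊤) (H : Subgroup G)
    (hH : H.index = 0) {ι : Type*} (σ : ι → G) (hσ : ∀ s ∈ S, (∃ j, σ j = s) ∧ ∃ j, σ j = s⁻¹)
    (C : Finset (G ⧸ H)) (hC : C.Nonempty) : ∃ z ∈ C, ∃ k, σ k • z ∉ C := by
  by_contra h
  push Not at h
  have inv : ∀ g : G, (∀ z ∈ C, g • z ∈ C) ∧ ∀ z ∈ C, g⁻¹ • z ∈ C := by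
    intro g
    have hg : g ∈ Subgroup.closure (S : Set G) := hS ▸ Subgroup.mem_top g
    induction hg using Subgroup.closure_induction with
    | mem s hs =>
      obtain ⟨⟨j, hj⟩, ⟨k, hk⟩⟩ := hσ s hs
      exact ⟨fun z hz => hj ▸ h z hz j, fun z hz => hk ▸ h z hz k⟩
    | one => simp
    | mul a b _ _ ha hb =>
      refine ⟨fun z hz => ?_, fun z hz => ?_⟩
      · rw [mul_smul]; exact ha.1 _ (hb.1 z hz)
      · rw [mul_inv_rev, mul_smul]; exact hb.2 _ (ha.2 z hz)
    | inv a _ ha => exact ⟨ha.2, by simpa using ha.1⟩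
  obtain ⟨z, hz⟩ := hC
  have all : ∀ y : G ⧸ H, y ∈ C := by
    intro y
    obtain ⟨g, rfl⟩ := MulAction.exists_smul_eq G z y
    exact (inv g).1 z hz
  have : Finite (G ⧸ H) := Finite.of_finite_univ (C.finite_toSet.subset fun y _ => all y)
  exact Subgroup.index_ne_zero_of_finite hH

variable {n : ℕ} {X : Fin n → Type*} [∀ i, MulAction G (X i)]

/-- Point of the product with some coordinates erased. -/
def pt (x : ∀ i, X i) (I : Finset (Fin n)) : ∀ i, Option (X i) :=
  fun i => if i ∈ I then some (x i) else none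

lemma smul_pt (h : G) (x y : ∀ i, X i) (I J : Finset (Fin n)) :
    h • pt x I = pt y J ↔ I = J ∧ ∀ i ∈ I, h • x i = y i := by
  constructor
  · intro e
    have e' : ∀ i, h • pt x I i = pt y J i := fun i => congrFun e i
    simp only [pt] at e'
    refine ⟨?_, fun i hi => ?_⟩
    · ext i
      have := e' i
      by_cases a : i ∈ I <;> by_cases b : i ∈ J <;> simp_all
    · have := e' i
      by_cases b : i ∈ J <;> simp_all
  · rintro ⟨rfl, e⟩
    funext i
    show h • pt x I i = pt y I i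
    by_cases a : i ∈ I <;> simp_all [pt]

/-- Signed sum of erased points. -/
noncomputable def vec (c : ℝ) (x : ∀ i, X i) : (∀ i, Option (X i)) →₀ ℝ :=
  ∑ I : Finset (Fin n), Finsupp.single (pt x I) (c ^ I.card)

open Classical in
lemma ip_vec (h : G) (c d : ℝ) (x y : ∀ i, X i) :
    ip _ (act _ h (vec c x)) (vec d y) =
      ∏ i, (1 + if h • x i = y i then c * d else 0) := by
  rw [Finset.prod_one_add, Finset.powerset_univ, vec, map_sum, map_sum, LinearMap.sum_apply]
  refine Finset.sum_congr rfl fun I _ => ?_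
  rw [act_single, ip_single, vec, Finsupp.finsetSum_apply]
  simp only [Finsupp.single_apply, eq_comm (b := h • pt x I), smul_pt]
  rw [Finset.sum_eq_single I (fun J _ hJ => by simp [Ne.symm hJ]) (by simp)]
  by_cases a : ∀ i ∈ I, h • x i = y i
  · rw [if_pos ⟨rfl, a⟩, Finset.prod_congr rfl (fun i hi => if_pos (a i hi)), Finset.prod_const,
      mul_pow]
  · rw [if_neg (fun q => a q.2), mul_zero]
    push Not at a
    obtain ⟨i, hi, hne⟩ := a
    exact (Finset.prod_eq_zero hi (if_neg hne)).symm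

theorem core {ι : Type*} [Fintype ι] (σ : ι → G) (τ : ι ≃ ι) (hτ : ∀ j, σ (τ j) = (σ j)⁻¹)
    (j0 : ι) (h0 : σ j0 = 1)
    (hexit : ∀ i, ∀ C : Finset (X i), C.Nonempty → ∃ z ∈ C, ∃ k, σ k • z ∉ C)
    (Bl : ℕ → G → Prop) (hB0 : Bl 0 1) (hB : ∀ m h j, Bl m h → Bl (m + 1) (h * σ j))
    (x y : ∀ i, X i) (R : ℕ) (hn : 0 < n) (hcov : ∀ h, Bl R h → ∃ i, h • x i = y i) :
    R ^ 2 ≤ 384 * Fintype.card ι ^ 2 * n ^ 3 := by
  classical
  have : Nonempty ι := ⟨j0⟩
  have hD : 0 < Fintype.card ι := Fintype.card_pos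
  set T := 2 * (32 * Fintype.card ι ^ 2 * n ^ 2) with hT
  have hT0 : 0 < T := by positivity
  have norm : ∀ (c : ℝ) (x : ∀ i, X i), c * c = 1 → ip _ (vec c x) (vec c x) ≤ 2 ^ n := by
    intro c x hc
    have := ip_vec (1 : G) c c x x
    rw [act_one] at this
    rw [this]; simp [hc]; norm_num
  have hv := van σ j0 h0 Bl hB0 hB (vec 1 x) (vec (-1) y) R (fun h hh => by
    obtain ⟨i, hi⟩ := hcov h hh
    rw [ip_vec]
    exact Finset.prod_eq_zero (Finset.mem_univ i) (by simp [hi]))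
  have up := cheb_bound (ip _) ip_symm ip_nonneg (mk _ σ) (mk_symm σ τ hτ) (mk_contr σ j0 h0)
    (vec 1 x) (vec (-1) y) (2 ^ n) (norm _ _ (by norm_num)) (norm _ _ (by norm_num)) R hv
    ((R : ℝ) / T) (by positivity) T 0
  have up2 := ((le_abs_self _).trans up).trans (cheb_final (2 ^ n) (by positivity) R T hT0)
  have low : 1 / 2 ≤ ip _ ((mk _ σ ^ T) (uv (mk _ σ) (vec 1 x) 0).1) (vec (-1) y) := by
    simp only [uv]
    rw [ip_pow]
    have a := ex_mono σ T (fun h => 1 - ∑ i, ip (X i) (act (X i) h (Finsupp.single (x i) 1))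
      (Finsupp.single (y i) 1)) (fun h => ip _ (act _ h (vec 1 x)) (vec (-1) y)) (fun h => by
        rw [ip_vec]
        simp only [act_single, ip_single, one_mul, Finsupp.single_apply]
        by_cases e : ∃ i, h • x i = y i
        · obtain ⟨i, hi⟩ := e
          rw [Finset.prod_eq_zero (Finset.mem_univ i) (by simp [hi])]
          have := Finset.single_le_sum (f := fun i => if y i = h • x i then (1 : ℝ) else 0)
            (fun j _ => by positivity) (Finset.mem_univ i)
          simp only [hi, if_true] at this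
          linarith
        · push Not at e
          simp [e, fun i => (e i).symm])
    rw [ex_lin] at a
    have b : ∑ i, ex σ T (fun h => ip (X i) (act (X i) h (Finsupp.single (x i) 1))
        (Finsupp.single (y i) 1)) ≤ ∑ _i : Fin n, (1 : ℝ) / (2 * n) :=
      Finset.sum_le_sum fun i _ => kernel_le σ τ hτ j0 h0 (hexit i) (x i) (y i) n hn
    have hn' : (0 : ℝ) < n := by exact_mod_cast hn
    have c : ∑ _i : Fin n, (1 : ℝ) / (2 * n) = 1 / 2 := by
      simp only [Finset.sum_const, Finset.card_univ, Fintype.card_fin, nsmul_eq_mul]; field_simp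
    linarith
  have h1 : Real.exp ((R : ℝ) ^ 2 / (2 * T)) ≤ Real.exp (n + 2) := by
    have e1 : Real.exp (-((R : ℝ) ^ 2 / (2 * T))) * Real.exp ((R : ℝ) ^ 2 / (2 * T)) = 1 := by
      rw [← Real.exp_add]; simp
    have e2 : (2 : ℝ) ^ (n + 2) ≤ Real.exp (n + 2) := by
      have : (2 : ℝ) ≤ Real.exp 1 := by linarith [Real.add_one_le_exp (1 : ℝ)]
      calc (2 : ℝ) ^ (n + 2) ≤ Real.exp 1 ^ (n + 2) := pow_le_pow_left₀ (by norm_num) this _
        _ = _ := by rw [← Real.exp_nat_mul]; push_cast; rw [mul_one]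
    have e3 := mul_le_mul_of_nonneg_right (low.trans up2) (Real.exp_pos ((R : ℝ) ^ 2 / (2 * T))).le
    rw [mul_assoc, e1] at e3
    rw [pow_add] at e2
    linarith
  rw [Real.exp_le_exp, div_le_iff₀ (by positivity)] at h1
  have hn1 : (1 : ℝ) ≤ n := by exact_mod_cast hn
  have h2 : (R : ℝ) ^ 2 ≤ 384 * (Fintype.card ι : ℝ) ^ 2 * n ^ 3 := by
    refine h1.trans ?_
    rw [hT]; push_cast
    have : 0 ≤ (Fintype.card ι : ℝ) ^ 2 * n ^ 2 := by positivity
    nlinarith
  exact_mod_cast h2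

theorem main (S : Finset G) (hS : Subgroup.closure (S : Set G) = ⊤) (r n : ℕ) (g : Fin n → G)
    (H : Fin n → Subgroup G) (hH : ∀ i, (H i).index = 0)
    (hc : ∀ l : List G, l.length ≤ r → (∀ x ∈ l, x ∈ S ∨ x⁻¹ ∈ S) →
      ∃ i, (g i)⁻¹ * l.prod ∈ H i) :
    r ^ 2 ≤ 384 * (2 * S.card + 1) ^ 2 * n ^ 3 := by
  let σ : Option (S ⊕ S) → G := fun j => match j with
    | none => 1
    | some (Sum.inl s) => s
    | some (Sum.inr s) => (s : G)⁻¹
  have hn : 0 < n := by
    obtain ⟨i, _⟩ := hc [] (by simp) (by simp)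
    exact Fin.pos i
  have := core (X := fun i => G ⧸ H i) σ (Equiv.optionCongr (Equiv.sumComm S S))
    (by rintro (_ | s | s) <;> simp [σ]) none rfl
    (fun i => exit_of_index S hS (H i) (hH i) σ fun s hs =>
      ⟨⟨some (Sum.inl ⟨s, hs⟩), rfl⟩, ⟨some (Sum.inr ⟨s, hs⟩), rfl⟩⟩)
    (fun m h => ∃ l : List G, l.length ≤ m ∧ (∀ x ∈ l, x ∈ S ∨ x⁻¹ ∈ S) ∧ l.prod = h)
    ⟨[], by simp⟩
    (by
      rintro m h j ⟨l, h1, h2, rfl⟩
      rcases j with _ | s | s
      · exact ⟨l, by omega, h2, by simp [σ]⟩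
      · refine ⟨l ++ [(s : G)], by simp; omega, ?_, by simp [σ]⟩
        intro x hx
        rcases List.mem_append.mp hx with hx | hx
        · exact h2 x hx
        · rw [List.mem_singleton.mp hx]; exact Or.inl s.2
      · refine ⟨l ++ [(s : G)⁻¹], by simp; omega, ?_, by simp [σ]⟩
        intro x hx
        rcases List.mem_append.mp hx with hx | hx
        · exact h2 x hx
        · rw [List.mem_singleton.mp hx]; exact Or.inr (by simp))
    (fun i => ((1 : G) : G ⧸ H i)) (fun i => (g i : G ⧸ H i)) r hn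
    (by
      rintro h ⟨l, h1, h2, rfl⟩
      obtain ⟨i, hi⟩ := hc l h1 h2
      refine ⟨i, ?_⟩
      rw [MulAction.Quotient.smul_coe, smul_eq_mul, mul_one, eq_comm, QuotientGroup.eq]
      exact hi)
  simpa [two_mul] using this

end Main

end Pool.Agent.H115Z.Cov
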